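import Pool.Agent.H41.AUG.Stmts2

set_option autoImplicit false

/-! C1 : weak columns. -/

namespace Pool.Agent.H700.AUG

open Pool.Agent.H41.AUG

theorem weak (hd : S_DEL) (_ht : S_TIGHT) : S_WEAK := by
  classical
  intro n m e U M S hm hdef hmin hMU hM hn hrow
  have key : ∀ s : Fin n, ∃ c : Fin n, s ∈ S → ¬ Rob U M m s → c ∈ nbr U S ∧ (s, c) ∈ M ∧
      ((S.filter fun s => Rob U M m s).filter fun x => (x, c) ∈ U).card ≤ 1 := by
    intro s
    by_cases hs : s ∈ S ∧ ¬ Rob U M m s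
    · obtain ⟨hs, hr⟩ := hs
      have hr2 := hr
      unfold Rob at hr2
      push Not at hr2
      obtain ⟨g, hg, S', hS', hs'⟩ := hr2
      obtain ⟨_, _, _, h4⟩ := hd n m e U M g S S' hm hdef hmin hMU hM hn hrow hg hS'
      obtain ⟨c, hc, hcM, hcard⟩ := h4 s hs hs'
      refine ⟨c, fun _ _ => ⟨hc, hcM, le_trans (Finset.card_le_card ?_) hcard⟩⟩
      intro x hx
      rw [Finset.mem_filter] at hx ⊢
      exact ⟨(Finset.mem_filter.1 hx.1).2 g hg S' hS', hx.2⟩
    · exact ⟨s, fun h1 h2 => absurd ⟨h1, h2⟩ hs⟩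
  choose F hF using key
  refine ⟨(S.filter fun s => ¬ Rob U M m s).image F, ?_, ?_, ?_⟩
  · intro c hc
    obtain ⟨s, hs, rfl⟩ := Finset.mem_image.1 hc
    obtain ⟨h1, h2⟩ := Finset.mem_filter.1 hs
    exact (hF s h1 h2).1
  · rw [Finset.card_image_of_injOn]
    · rw [add_comm]
      exact Finset.card_filter_add_card_filter_not _
    · intro s hs s' hs' h
      obtain ⟨h1, h2⟩ := Finset.mem_filter.1 (Finset.mem_coe.1 hs)
      obtain ⟨h3, h4⟩ := Finset.mem_filter.1 (Finset.mem_coe.1 hs')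
      have e1 := (hF s h1 h2).2.1
      have e2 := (hF s' h3 h4).2.1
      exact congrArg Prod.fst (hM.2 _ e1 _ e2 h)
  · intro c hc
    obtain ⟨s, hs, rfl⟩ := Finset.mem_image.1 hc
    obtain ⟨h1, h2⟩ := Finset.mem_filter.1 hs
    exact (hF s h1 h2).2.2

end Pool.Agent.H700.AUG
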